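import Mathlib

/-!
# A dense sequence in the plane all of whose dense subsequences contain a rational distance

We answer the question negatively.  Choose a countable dense subset `p 0, p 1, ...` of the open
unit disc `U`, and pairwise disjoint open discs `V 0, V 1, ...` outside `U`.  Inside `V i` we only
use points at rational distance from `p i` (they are dense in `V i`), and outside `U` and the
`V i` we use an arbitrary countable dense set.  A dense subsequence must contain a term in `U`,
which is some `p i`, and a term in `V i`, which is at rational distance from `p i`.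
-/

set_option autoImplicit false

open Metric Set TopologicalSpace

namespace Pool.Agent.Results.MP_9c82d2_co.NoDenseIrrational

/-- The centre of the `i`-th disc. -/
noncomputable def ctr (i : ℕ) : EuclideanSpace ℝ (Fin 2) :=
  EuclideanSpace.single 0 ((i : ℝ) + 2)

/-- The `i`-th disc. -/
noncomputable def V (i : ℕ) : Set (EuclideanSpace ℝ (Fin 2)) := ball (ctr i) (1 / 4)

lemma dist_ctr (i j : ℕ) : dist (ctr i) (ctr j) = |(i : ℝ) - j| := by
  unfold ctr
  rw [PiLp.dist_single_same, Real.dist_eq]
  congr 1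
  ring

lemma dist_ctr_zero (i : ℕ) : dist (ctr i) 0 = (i : ℝ) + 2 := by
  unfold ctr
  rw [dist_zero_right, PiLp.norm_single, Real.norm_eq_abs, abs_of_nonneg (by positivity)]

lemma V_disjoint_V {i j : ℕ} (h : i ≠ j) : Disjoint (V i) (V j) := by
  unfold V
  apply ball_disjoint_ball
  rw [dist_ctr]
  have h1 : (1 : ℝ) ≤ |(i : ℝ) - j| := by
    have h2 : (1 : ℤ) ≤ |(i : ℤ) - j| := by
      apply Int.one_le_abs
      omega
    exact_mod_cast h2
  linarith

lemma V_disjoint_U (i : ℕ) : Disjoint (V i) (ball (0 : EuclideanSpace ℝ (Fin 2)) 1) := by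
  unfold V
  apply ball_disjoint_ball
  rw [dist_ctr_zero]
  have : (0 : ℝ) ≤ i := Nat.cast_nonneg i
  linarith

/-- Points of an open set at rational distance from a point outside of it are dense in it. -/
lemma subset_closure_rat {W : Set (EuclideanSpace ℝ (Fin 2))} (hW : IsOpen W)
    {p : EuclideanSpace ℝ (Fin 2)} (hp : p ∉ W) :
    W ⊆ closure {z | z ∈ W ∧ ∃ q : ℚ, dist p z = q} := by
  intro z hz
  rw [_root_.mem_closure_iff]
  intro O hO hzO
  have hne : z ≠ p := fun h => hp (h ▸ hz)
  have hpos : 0 < ‖z - p‖ := norm_pos_iff.mpr (sub_ne_zero.mpr hne)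
  let γ : ℝ → EuclideanSpace ℝ (Fin 2) := fun r => p + (r / ‖z - p‖) • (z - p)
  have hγ : Continuous γ := by
    have : Continuous fun r : ℝ => r / ‖z - p‖ := continuous_id.div_const _
    exact continuous_const.add (this.smul continuous_const)
  have hγz : γ ‖z - p‖ = z := by
    simp only [γ]
    rw [div_self hpos.ne', one_smul]
    abel
  have hopen : IsOpen (γ ⁻¹' (W ∩ O) ∩ Ioi 0) := ((hW.inter hO).preimage hγ).inter isOpen_Ioi
  have hnonempty : (γ ⁻¹' (W ∩ O) ∩ Ioi 0).Nonempty :=
    ⟨‖z - p‖, by
      refine ⟨?_, hpos⟩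
      rw [mem_preimage, hγz]
      exact ⟨hz, hzO⟩⟩
  obtain ⟨q, hq⟩ := (Rat.denseRange_cast (𝕜 := ℝ)).exists_mem_open hopen hnonempty
  obtain ⟨⟨hq1, hq2⟩, hq3⟩ := hq
  refine ⟨γ q, hq2, hq1, q, ?_⟩
  have hq4 : (0 : ℝ) < q := hq3
  simp only [γ]
  rw [dist_self_add_right, norm_smul, Real.norm_eq_abs, abs_div, abs_norm,
    div_mul_cancel₀ _ hpos.ne', abs_of_pos hq4]

/-- Negative answer to the question: there is a dense sequence of pairwise distinct points of the
Euclidean plane such that every dense subsequence of it has two terms at rational distance. -/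
theorem result :
    ∃ x : ℕ → EuclideanSpace ℝ (Fin 2), Function.Injective x ∧ DenseRange x ∧
      ∀ φ : ℕ → ℕ, StrictMono φ → DenseRange (x ∘ φ) →
        ∃ k l : ℕ, k ≠ l ∧ ¬ Irrational (dist (x (φ k)) (x (φ l))) := by
  classical
  set U : Set (EuclideanSpace ℝ (Fin 2)) := ball 0 1 with hU
  have hUo : IsOpen U := isOpen_ball
  have hUne : U.Nonempty := ⟨0, by simp [hU]⟩
  -- a countable dense subset of `U`
  obtain ⟨D, hDU, hDc, hUD⟩ := (IsSeparable.of_separableSpace U).exists_countable_dense_subset
  have hDne : D.Nonempty := by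
    obtain ⟨z, hz⟩ := hUne
    obtain ⟨w, _, hw⟩ := _root_.mem_closure_iff.mp (hUD hz) U hUo hz
    exact ⟨w, hw⟩
  obtain ⟨p, hp⟩ := hDc.exists_eq_range hDne
  have hpU : ∀ i, p i ∈ U := fun i => hDU (hp ▸ mem_range_self i)
  -- countable dense subsets of the sets of admissible points in the discs `V i`
  have hT : ∀ i, ∃ T : Set (EuclideanSpace ℝ (Fin 2)),
      T ⊆ {z | z ∈ V i ∧ ∃ q : ℚ, dist (p i) z = q} ∧ T.Countable ∧
        {z | z ∈ V i ∧ ∃ q : ℚ, dist (p i) z = q} ⊆ closure T := fun i =>
    (IsSeparable.of_separableSpace _).exists_countable_dense_subset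
  choose T hTs hTc hTd using hT
  -- a countable dense subset of the rest
  obtain ⟨D', hD'W, hD'c, hWD'⟩ :=
    (IsSeparable.of_separableSpace (U ∪ ⋃ i, V i)ᶜ).exists_countable_dense_subset
  set X : Set (EuclideanSpace ℝ (Fin 2)) := D ∪ (⋃ i, T i) ∪ D' with hX
  have hXc : X.Countable := (hDc.union (countable_iUnion hTc)).union hD'c
  have hXd : Dense X := by
    intro z
    by_cases hz : z ∈ U ∪ ⋃ i, V i
    · rcases hz with hz | hz
      · exact closure_mono (subset_union_left.trans subset_union_left) (hUD hz)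
      · obtain ⟨i, hi⟩ := mem_iUnion.mp hz
        have hpi : p i ∉ V i := fun h => (disjoint_left.mp (V_disjoint_U i)) h (hpU i)
        have h1 := subset_closure_rat (W := V i) isOpen_ball hpi hi
        have h2 : z ∈ closure (T i) := closure_minimal (hTd i) isClosed_closure h1
        exact closure_mono
          (((subset_iUnion T i).trans subset_union_right).trans subset_union_left) h2
    · exact closure_mono subset_union_right (hWD' hz)
  -- the traces of `X` on `U` and on the `V i`
  have hXU : ∀ z ∈ X, z ∈ U → ∃ i, z = p i := by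
    intro z hz hzU
    rcases hz with (hz | hz) | hz
    · rw [hp] at hz
      obtain ⟨i, hi⟩ := hz
      exact ⟨i, hi.symm⟩
    · obtain ⟨i, hi⟩ := mem_iUnion.mp hz
      exact absurd hzU ((disjoint_left.mp (V_disjoint_U i)) (hTs i hi).1)
    · exact absurd (Or.inl hzU) (hD'W hz)
  have hXV : ∀ i, ∀ z ∈ X, z ∈ V i → ∃ q : ℚ, dist (p i) z = q := by
    intro i z hz hzV
    rcases hz with (hz | hz) | hz
    · exact absurd (hDU hz) ((disjoint_left.mp (V_disjoint_U i)) hzV)
    · obtain ⟨j, hj⟩ := mem_iUnion.mp hz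
      by_cases hij : i = j
      · subst hij
        exact (hTs i hj).2
      · exact absurd (hTs j hj).1 ((disjoint_left.mp (V_disjoint_V hij)) hzV)
    · exact absurd (Or.inr (mem_iUnion.mpr ⟨i, hzV⟩)) (hD'W hz)
  -- enumerate `X` without repetition
  have hXi : X.Infinite := by
    intro hfin
    have h1 : X = univ := by
      rw [← hfin.isClosed.closure_eq]
      exact hXd.closure_eq
    rw [h1] at hfin
    exact (infinite_univ (α := EuclideanSpace ℝ (Fin 2))) hfin
  have : Countable X := hXc.to_subtype
  have : Infinite X := hXi.to_subtype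
  obtain ⟨hden⟩ := nonempty_denumerable X
  let e : ℕ ≃ X := (Denumerable.eqv X).symm
  refine ⟨fun n => (e n : EuclideanSpace ℝ (Fin 2)), ?_, ?_, ?_⟩
  · intro m n hmn
    exact e.injective (Subtype.ext hmn)
  · have : range (fun n => (e n : EuclideanSpace ℝ (Fin 2))) = X := by
      ext z
      constructor
      · rintro ⟨n, rfl⟩
        exact (e n).2
      · intro hz
        exact ⟨e.symm ⟨z, hz⟩, by simp⟩
    rw [DenseRange, this]
    exact hXd
  · intro φ _ hφd
    obtain ⟨k, hk⟩ := hφd.exists_mem_open hUo hUne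
    simp only [Function.comp_apply] at hk
    obtain ⟨i, hi⟩ := hXU _ (e (φ k)).2 hk
    obtain ⟨l, hl⟩ := hφd.exists_mem_open (isOpen_ball : IsOpen (V i))
      ⟨ctr i, by simp⟩
    simp only [Function.comp_apply] at hl
    obtain ⟨q, hq⟩ := hXV i _ (e (φ l)).2 hl
    refine ⟨k, l, ?_, ?_⟩
    · rintro rfl
      exact (disjoint_left.mp (V_disjoint_U i)) hl hk
    · show ¬ Irrational (dist (e (φ k) : EuclideanSpace ℝ (Fin 2)) (e (φ l)))
      rw [hi, hq]
      exact Rat.not_irrational q

end Pool.Agent.Results.MP_9c82d2_co.NoDenseIrrational
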